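import Pool.Agent.Helper89.OS.St1

/-!
# Project OS, module XD: an element of exact order `p ^ a` in the support of `rho (s2 b) e_o`
(adapted from `Pool.Agent.Helper67.YF.M_PF`)
-/

set_option autoImplicit false

open Matrix ComplexConjugate Pool.Agent.Helper94.YF Pool.Agent.Helper94.YG
open Pool.Agent.Helper89.OS

namespace Pool.Agent.Helper53.OS

theorem s2_inv {L : ℕ} (b : ZMod L) : (s2 b)⁻¹ = U b * Lo (-b) * U b := by
  rw [inv_eq_iff_mul_eq_one]
  unfold s2 U Lo
  ext i j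
  fin_cases i <;> fin_cases j <;> simp [Matrix.mul_apply, Fin.sum_univ_two] <;> ring

theorem Lo_zero {L : ℕ} : Lo (0 : ZMod L) = 1 := by
  unfold Lo
  ext i j
  fin_cases i <;> fin_cases j <;> simp

theorem Lo_Sm {L : ℕ} (z : ZMod L) : Lo (-z) * Sm = Sm * U z := by
  unfold Lo Sm U
  ext i j
  fin_cases i <;> fin_cases j <;> simp [Matrix.mul_apply, Fin.sum_univ_two]

theorem conj_U {L : ℕ} (b z : ZMod L) (hb : b * b = b) (hz : z * b = z) :
    (s2 b)⁻¹ * (U z * s2 b) = Lo (-z) := by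
  rw [s2_inv]
  unfold s2 U Lo
  ext i j
  fin_cases i <;> fin_cases j <;> simp [Matrix.mul_apply, Fin.sum_univ_two] <;>
    simp only [hb, hz]
  · linear_combination (2 - b) * hb - hz
  · linear_combination (b - 1) * hz
  · linear_combination (-1 : ZMod L) * hz
  · linear_combination (2 - b + z) * hb

/-- `tw (k z) = (tw z)^k` -/
theorem tw_pow {I : Type} [Fintype I] [DecidableEq I] (Z : CentreRep I)
    (F3 : ∀ x y i, Z.tw (x + y) i = Z.tw x i * Z.tw y i)
    (F4 : ∀ i, Z.tw 0 i = 1) (z : ZMod Z.L) (i : I) (k : ℕ) :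
    Z.tw ((k : ZMod Z.L) * z) i = Z.tw z i ^ k := by
  induction k with
  | zero => simp [F4]
  | succ k ih =>
    rw [Nat.cast_succ, add_mul, one_mul, F3, ih, pow_succ]

theorem hXD : StXD := by
  intro hFUS hDUA I _ _ Z p a b hp ha hI
  obtain ⟨F1, -, F3, F4, -, -, -, F8, -⟩ := hFUS hDUA I Z
  by_contra hcon
  push Not at hcon
  obtain ⟨hb, -, L', hL, hndvd, hL'⟩ := hI
  set h : ℕ := p ^ (a - 1) with hh
  have hph : p ^ a = p * h := by
    rw [hh, ← pow_succ']
    congr 1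
    omega
  have hp2 : 2 ≤ p := hp.two_le
  have hhpos : 0 < h := by rw [hh]; exact pow_pos hp.pos _
  set z : ZMod Z.L := (h : ZMod Z.L) * b with hz
  have hzb : z * b = z := by rw [hz, mul_assoc, hb]
  have hcol : ∀ i, Z.rho (U z * s2 b) i Z.o = Z.rho (s2 b) i Z.o := by
    intro i
    rw [map_mul, F1, Matrix.diagonal_mul]
    by_cases hy : Z.rho (s2 b) i Z.o = 0
    · rw [hy, mul_zero]
    · rw [hz, tw_pow Z F3 F4, hcon i hy, one_mul]
  have hLo : ∀ i, Z.rho (Lo (-z)) i Z.o = if i = Z.o then 1 else 0 := by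
    intro i
    rw [← conj_U b z hb hzb, map_mul, Matrix.mul_apply]
    simp_rw [hcol]
    rw [← Matrix.mul_apply, ← map_mul, inv_mul_cancel, map_one, Matrix.one_apply]
  have h0 : ∀ i, Z.rho (Lo 0) i Z.o = if i = Z.o then 1 else 0 := by
    intro i
    rw [Lo_zero, map_one, Matrix.one_apply]
  have hone : Z.rho (Lo (-z)) = 1 := by
    ext i j
    rw [F8]
    have h1 : ∀ l, Z.rho (Lo (-z)) l Z.o = Z.rho (Lo 0) l Z.o := by
      intro l
      rw [hLo, h0]
    simp_rw [h1]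
    rw [← F8, Lo_zero, map_one]
  have hU : Z.rho (U z) = 1 := by
    have h1 : Z.rho Sm = Z.rho Sm * Z.rho (U z) := by
      rw [← map_mul, ← Lo_Sm, map_mul, hone, one_mul]
    have h2 : Z.rho Sm⁻¹ * Z.rho Sm = 1 := by
      rw [← map_mul, inv_mul_cancel, map_one]
    calc Z.rho (U z) = (Z.rho Sm⁻¹ * Z.rho Sm) * Z.rho (U z) := by rw [h2, one_mul]
      _ = Z.rho Sm⁻¹ * Z.rho Sm := by rw [mul_assoc, ← h1]
      _ = 1 := h2
  have hth : ∀ i, Z.th i ^ z.val = 1 := by
    intro i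
    have h1 := F1 z
    rw [hU] at h1
    have h2 := congrFun (congrFun h1 i) i
    rw [Matrix.one_apply_eq, Matrix.diagonal_apply_eq] at h2
    exact h2.symm
  have hdvd := Z.th_order z.val hth
  have : NeZero Z.L := ⟨Z.L_pos.ne'⟩
  have hval : z.val = 0 := Nat.eq_zero_of_dvd_of_lt hdvd (ZMod.val_lt z)
  have hz0 : z = 0 := (ZMod.val_eq_zero z).mp hval
  rw [hz] at hz0
  have hfin : ((L' * h : ℕ) : ZMod Z.L) = 0 := by
    push_cast
    linear_combination (h : ZMod Z.L) * hL' + (L' : ZMod Z.L) * hz0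
  rw [ZMod.natCast_eq_zero_iff] at hfin
  have hLpos : 0 < L' := by
    rcases Nat.eq_zero_or_pos L' with h1 | h1
    · exact absurd (h1 ▸ dvd_zero p) hndvd
    · exact h1
  have h3 := Nat.le_of_dvd (Nat.mul_pos hLpos hhpos) hfin
  rw [hL, hph] at h3
  nlinarith [Nat.mul_pos hLpos hhpos]

end Pool.Agent.Helper53.OS
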